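import Pool.Agent.V11244.ConstrL
import Pool.Agent.V11244.InnerGame

/-!
# Winning strategies in the strong countable fan tightness game survive from L to V

The classes of sets are the terms of type `Set ZFSet.{0}`; the universe `V` is `Set.univ`, the
constructible universe is `ConstrL.L`. The game is defined in `Pool.Agent.V11244.InnerGame`.
-/

set_option autoImplicit false

namespace Pool.Agent.Results.MP_cb406a_lc.NoSuchSpace

open Pool.Agent.W868 Pool.Agent.V11244.InnerGame Pool.Agent.V11244.ConstrL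

/-- In `M`, the set `τ` is a topology on `X`. -/
def IsTopologyIn (M : Set ZFSet.{0}) (X τ : ZFSet.{0}) : Prop :=
  X ∈ τ ∧ ∅ ∈ τ ∧ (∀ U ∈ τ, U ⊆ X) ∧ (∀ U ∈ τ, ∀ W ∈ τ, U ∩ W ∈ τ) ∧
    ∀ F ∈ M, F ⊆ τ → ZFSet.sUnion F ∈ τ

/-- **Theorem.** (1) The universe `V` and the constructible universe `L` are transitive models of
ZFC, and for every topological space `(X, τ)` in `L` and every point `x` of `X`: if in `L` player
II has a winning strategy in the strong countable fan tightness game at `x`, then II has a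
winning strategy in this game as played in `V`.
(2) The same is true for all transitive models `M ⊆ N` of ZFC (set or class models, of any
height), for example for `N = M[G]`. -/
theorem result :
    (IsZFC L ∧ IsZFC (Set.univ : Set ZFSet.{0}) ∧
      ∀ X ∈ L, ∀ τ ∈ L, IsTopologyIn L X τ → ∀ x ∈ X,
        WinsIn L X τ x → WinsIn Set.univ X τ x) ∧
    ∀ M N : Set ZFSet.{0}, IsZFC M → IsZFC N → M ⊆ N →
      ∀ X ∈ M, ∀ τ ∈ M, IsTopologyIn M X τ → ∀ x ∈ X, WinsIn M X τ x → WinsIn N X τ x :=
  ⟨⟨isZFC_L, isZFC_univ, fun _ hX _ hτ _ _ hx h => main isZFC_L isZFC_univ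
    (fun _ _ => trivial) hX hτ (isZFC_L.trans _ hX _ hx) h⟩,
    fun _ _ hM hN hMN _ hX _ hτ _ _ hx h => main hM hN hMN hX hτ (hM.trans _ hX _ hx) h⟩

end Pool.Agent.Results.MP_cb406a_lc.NoSuchSpace
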